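import Mathlib
import Pool.Agent.H81.Comb2

namespace Pool.Agent.Results.MP_fdfd6d_gt.TwoCombs

/-- `X` is a curve (a one-dimensional continuum) and every point of `X` has Menger–Urysohn order
at most `n`. -/
def IsCurveOfOrderLE (X : Type) [MetricSpace X] (n : ℕ) : Prop :=
  CompactSpace X ∧ ConnectedSpace X ∧ smallInductiveDimension X = 1 ∧
    ∀ (p : X) (ε : ℝ), 0 < ε → ∃ U : Set X, IsOpen U ∧ p ∈ U ∧ U ⊆ Metric.ball p ε ∧
      (frontier U).encard ≤ n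

/-- `r` is a map of `X` onto `Y` that is monotonely refinable. -/
def MonotonelyRefinable {X Y : Type} [MetricSpace X] [MetricSpace Y] (r : X → Y) : Prop :=
  Continuous r ∧ Function.Surjective r ∧ ∀ ε > 0, ∃ f : X → Y,
    Continuous f ∧ Function.Surjective f ∧
      (∀ y, IsConnected (f ⁻¹' {y}) ∧ Metric.diam (f ⁻¹' {y}) < ε) ∧ ∀ x, dist (f x) (r x) < ε

open Pool.Agent.H81.Comb Set

theorem curve {h : ℝ → ℝ} (H : Good h) {a b : ℝ} (hab : a < b) :
    IsCurveOfOrderLE (comb a b h) 3 := by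
  have ha : (a, (0 : ℝ)) ∈ comb a b h := ⟨le_rfl, hab.le, le_rfl, H.nonneg a⟩
  have hb : (b, (0 : ℝ)) ∈ comb a b h := ⟨hab.le, le_rfl, le_rfl, H.nonneg b⟩
  have hc : ConnectedSpace (comb a b h) :=
    isConnected_iff_connectedSpace.1 ⟨⟨_, ha⟩, H.preconn hab.le⟩
  exact ⟨isCompact_iff_compactSpace.1 H.compact, hc,
    dim_one _ ⟨_, ha⟩ ⟨_, hb⟩ (fun e => hab.ne (congrArg (fun p => p.1.1) e)) H.order, H.order⟩

theorem result : ∃ X Y : Set (ℝ × ℝ), IsCurveOfOrderLE X 3 ∧ IsCurveOfOrderLE Y 3 ∧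
    IsEmpty (X ≃ₜ Y) ∧ ∃ r : X → Y, MonotonelyRefinable r := by
  refine ⟨XX, YY, curve goodX (by norm_num), curve goodY (by norm_num), not_homeo,
    fun p => ⟨R p.1, R_mem p.2⟩, (R_cont.comp continuous_subtype_val).subtype_mk _, fun q => ?_,
    fun ε hε => ?_⟩
  · obtain ⟨p, hp, e⟩ := R_surj q.2
    exact ⟨⟨p, hp⟩, Subtype.ext e⟩
  obtain ⟨k, hk⟩ := exists_pow_lt_of_lt_one hε (show (1 / 2 : ℝ) < 1 by norm_num)
  have hs : Function.Surjective fun p : XX => (⟨F ((1 / 2) ^ k) p.1, F_mem k p.2⟩ : YY) := by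
    intro q
    obtain ⟨p, hp, e⟩ := F_surj k q.2
    exact ⟨⟨p, hp⟩, Subtype.ext e⟩
  refine ⟨_, ((F_cont _).comp continuous_subtype_val).subtype_mk _, hs, fun q => ⟨⟨hs q, ?_⟩, ?_⟩,
    fun p => (FR_dist k p.2).trans_lt hk⟩
  · have e : Subtype.val '' ((fun p : XX => (⟨F ((1 / 2) ^ k) p.1, F_mem k p.2⟩ : YY)) ⁻¹' {q}) =
        {p | p ∈ XX ∧ F ((1 / 2) ^ k) p = q.1} := by
      ext p
      constructor
      · rintro ⟨p, hp, rfl⟩
        exact ⟨p.2, congrArg Subtype.val hp⟩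
      · rintro ⟨h1, h2⟩
        exact ⟨⟨p, h1⟩, Subtype.ext h2, rfl⟩
    exact Topology.IsInducing.subtypeVal.isPreconnected_image.1
      (e ▸ (F_convex k q.1).isPreconnected)
  · refine (Metric.diam_le_of_forall_dist_le (pow_pos' k).le fun p hp p' hp' => ?_).trans_lt hk
    exact F_dist k p.2 p'.2 ((congrArg Subtype.val hp).trans (congrArg Subtype.val hp').symm)

end Pool.Agent.Results.MP_fdfd6d_gt.TwoCombs
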